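import Mathlib
import Pool.Agent.H906R3.YM.Conc
import Pool.Agent.W793.YM.Inf
import Pool.Agent.TH618.YM.Cartan
import Pool.Agent.Run7.h630.L.Law

/-!
# Lattice Yang-Mills theory: the joint law of the Wilson loops at weak coupling

Wilson's lattice gauge theory in dimension `d ≥ 3` with gauge group any closed subgroup `G` of
`U(N)` at the inverse coupling `β ≥ 1`, in any infinite volume limit `ν`. For closed lattice paths
`C_i` let `K_ij` be their mutual inductance `∑ ± G(e - e')` (Neumann's formula), the sum over the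
pairs of parallel steps of `C_i`, `C_j`, with `G` the Green function of the Laplacian on `ℤ^d`. The
variables `β Re tr (1 - U(C_i))` have jointly the law of `(1/2) ∑_a (X_i^a)^2`, with `dim G`
independent centered Gaussian vectors `X^a` of covariance `K`, up to errors which are powers of
`1 / β`, for all loops of length up to a power of `β`: the Laplace functional is
`det (1 + (s_i K_ij)) ^ (- dim G / 2)`, the means are `(dim G / 2) K_ii`, and the covariances are
`(dim G / 2) K_ij ^ 2`.
-/

open MeasureTheory Matrix Filter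
open scoped Matrix.Norms.Frobenius Topology ContDiff

namespace Pool.Agent.Results.MP_7f377f_mp.WilsonLoopLaw

set_option linter.unusedSectionVars false

noncomputable section

/-- Complex `N × N` matrices. -/
abbrev Mt (N : ℕ) := Matrix (Fin N) (Fin N) ℂ

/-- The unitary group `U(N)`. -/
abbrev UU (N : ℕ) := Matrix.unitaryGroup (Fin N) ℂ

/-- The matrix of an element of a subgroup of `U(N)`. -/
def mt {N : ℕ} {G : Subgroup (UU N)} (g : G) : Mt N := ((g : UU N) : Mt N)

/-- The dimension of `G`: the dimension of the real space spanned by all matrices `Y` with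
`exp (t Y) ∈ G` for all real `t`. -/
def dimG {N : ℕ} (G : Subgroup (UU N)) : ℕ :=
  Module.finrank ℝ (Submodule.span ℝ {Y : Mt N | ∀ t : ℝ, ∃ g : G, mt g = NormedSpace.exp (t • Y)})

/-- Links of the periodic lattice `(ℤ/l)^d`: base point and direction. -/
abbrev Link (d l : ℕ) := (Fin d → ZMod l) × Fin d

/-- Links of the lattice `ℤ^d`: base point and direction. -/
abbrev LinkZ (d : ℕ) := (Fin d → ℤ) × Fin d

section

variable {N d l : ℕ} {G : Subgroup (UU N)}

/-- The product of the link variables around the plaquette at `x` in the directions `i`, `j`. -/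
def plaq (U : Link d l → G) (x : Fin d → ZMod l) (i j : Fin d) : G :=
  U (x, i) * U (x + Pi.single i 1, j) * (U (x + Pi.single j 1, i))⁻¹ * (U (x, j))⁻¹

/-- The Wilson action `∑_p Re tr (1 - U_p)`, the sum over the plaquettes. -/
def action [NeZero l] (U : Link d l → G) : ℝ :=
  ∑ x : Fin d → ZMod l, ∑ i : Fin d, ∑ j : Fin d,
    if i < j then (trace (1 - mt (plaq U x i j))).re else 0

/-- The periodic extension of a configuration. -/
def per (U : Link d l → G) : LinkZ d → G := fun e => U (fun i => (e.1 i : ZMod l), e.2)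

/-- The expectation of `F` in the lattice Yang-Mills theory on `(ℤ/l)^d`, `μ` being the Haar
measure. -/
def expect (l : ℕ) [NeZero l] [MeasurableSpace G] (μ : Measure G) (β : ℝ)
    (F : (LinkZ d → G) → ℝ) : ℝ :=
  (∫ U : Link d l → G, F (per U) * Real.exp (-(β * action U)) ∂(Measure.pi fun _ => μ)) /
    ∫ U : Link d l → G, Real.exp (-(β * action U)) ∂(Measure.pi fun _ => μ)

/-- `ν` is an infinite volume limit (weak limit along a subsequence) of the theories on the tori of
even side at inverse coupling `β`. -/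
structure IsInfVol [MeasurableSpace G] (μ : Measure G) (β : ℝ)
    (ν : Measure (LinkZ d → G)) : Prop where
  prob : IsProbabilityMeasure ν
  lim : ∃ s : ℕ → ℕ, Tendsto s atTop atTop ∧ ∀ F : (LinkZ d → G) → ℝ, Continuous F →
    Tendsto (fun j => expect (2 * (s j + 1)) μ β F) atTop (𝓝 (∫ V, F V ∂ν))

/-- The product of the link variables along the lattice path from `x` with the given list of steps;
a step is a direction and a sense, `true` for forwards and `false` for backwards. -/
def hol (V : LinkZ d → G) : (Fin d → ℤ) → List (Fin d × Bool) → G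
  | _, [] => 1
  | x, (i, true) :: p => V (x, i) * hol V (x + Pi.single i 1) p
  | x, (i, false) :: p => (V (x - Pi.single i 1, i))⁻¹ * hol V (x - Pi.single i 1) p

/-- The end point of the lattice path from `x` with the given list of steps. -/
def dest : (Fin d → ℤ) → List (Fin d × Bool) → (Fin d → ℤ)
  | x, [] => x
  | x, (i, true) :: p => dest (x + Pi.single i 1) p
  | x, (i, false) :: p => dest (x - Pi.single i 1) p

/-- Lattice paths: starting point and steps. -/
abbrev Path (d : ℕ) := (Fin d → ℤ) × List (Fin d × Bool)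

/-- `C` is a closed lattice path of length at most `Λ`. -/
def IsLoop (Λ : ℕ) (C : Path d) : Prop := dest C.1 C.2 = C.1 ∧ C.2.length ≤ Λ

/-- The starting points of the paths `C`, `C'` have distance at most `Λ` (in the sup norm). -/
def Near (Λ : ℕ) (C C' : Path d) : Prop := ∀ k, |C.1 k - C'.1 k| ≤ Λ

/-- The energy `Re tr (1 - U(C))` of the loop `C`. -/
def loopE (C : Path d) (V : LinkZ d → G) : ℝ := (trace (1 - mt (hol V C.1 C.2))).re

/-- The Laplace functional of the variables `β Re tr (1 - U(C_i))` under the measure `ν`. -/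
def laplace [MeasurableSpace G] (ν : Measure (LinkZ d → G)) (β : ℝ) {k : ℕ} (C : Fin k → Path d)
    (s : Fin k → ℝ) : ℝ := ∫ V, Real.exp (-(β * ∑ i, s i * loopE (C i) V)) ∂ν

/-- The mean of `Re tr (1 - U(C))`. -/
def mean [MeasurableSpace G] (ν : Measure (LinkZ d → G)) (C : Path d) : ℝ := ∫ V, loopE C V ∂ν

/-- The covariance of `Re tr (1 - U(C))` and `Re tr (1 - U(C'))`. -/
def cov [MeasurableSpace G] (ν : Measure (LinkZ d → G)) (C C' : Path d) : ℝ :=
  ∫ V, loopE C V * loopE C' V ∂ν - mean ν C * mean ν C'

/-- The oriented links of a lattice path: base point of the link, direction and sign. -/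
def links : (Fin d → ℤ) → List (Fin d × Bool) → List ((Fin d → ℤ) × Fin d × ℤ)
  | _, [] => []
  | x, (i, true) :: p => (x, i, 1) :: links (x + Pi.single i 1) p
  | x, (i, false) :: p => (x - Pi.single i 1, i, -1) :: links (x - Pi.single i 1) p

/-- The Green function of `-Δ` on `ℤ^d`, as an integral over the momenta `2 π u`. -/
def green (z : Fin d → ℤ) : ℝ :=
  ∫ u in Set.pi Set.univ (fun _ : Fin d => Set.Icc (0 : ℝ) 1),
    Real.cos (2 * Real.pi * ∑ i, (z i : ℝ) * u i) / ∑ i, 2 * (1 - Real.cos (2 * Real.pi * u i))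

/-- The mutual inductance of two lattice paths: the sum over the pairs of parallel links of the
product of the signs and the Green function between the links. -/
def induct (C C' : Path d) : ℝ :=
  ((links C.1 C.2).map fun e => ((links C'.1 C'.2).map fun f =>
    if e.2.1 = f.2.1 then ((e.2.2 * f.2.2 : ℤ) : ℝ) * green (e.1 - f.1) else 0).sum).sum

/-- The determinant of `1 + (s_i K(C_i, C_j))`. -/
def loopDet {k : ℕ} (C : Fin k → Path d) (s : Fin k → ℝ) : ℝ :=
  det (1 + Matrix.of fun i j => s i * induct (C i) (C j))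

end

open Pool.Agent.H906R3 Pool.Agent.W793 Pool.Agent.TH618 Pool.Agent.Run7

variable {N n d l : ℕ} {G : Subgroup (UU N)}

/-- A Haar probability measure is invariant under right multiplications. -/
lemma right_inv {H : Type*} [Group H] [TopologicalSpace H] [IsTopologicalGroup H]
    [CompactSpace H] [MeasurableSpace H] [BorelSpace H] (μ : Measure H)
    [IsProbabilityMeasure μ] [μ.IsHaarMeasure] : μ.IsMulRightInvariant := by
  refine ⟨fun g => ?_⟩
  have h1 : IsProbabilityMeasure (Measure.map (fun x => x * g) μ) :=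
    Measure.isProbabilityMeasure_map (measurable_mul_const g).aemeasurable
  exact Measure.isHaarMeasure_eq_of_isProbabilityMeasure _ _

/-- A Haar probability measure is invariant under the inversion. -/
lemma inv_inv' {H : Type*} [Group H] [TopologicalSpace H] [IsTopologicalGroup H]
    [CompactSpace H] [MeasurableSpace H] [BorelSpace H] (μ : Measure H)
    [IsProbabilityMeasure μ] [μ.IsHaarMeasure] : μ.IsInvInvariant := by
  have hr := right_inv μ
  refine ⟨?_⟩
  have h1 : IsProbabilityMeasure μ.inv :=
    Measure.isProbabilityMeasure_map measurable_inv.aemeasurable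
  have h2 : μ.inv.IsMulLeftInvariant := inferInstance
  have h3 : μ.inv.IsHaarMeasure :=
    Measure.isHaarMeasure_of_isCompact_nonempty_interior μ.inv Set.univ isCompact_univ
      (by simp) (by simp) (by simp)
  exact Measure.isHaarMeasure_eq_of_isProbabilityMeasure _ _

lemma action_eq [NeZero l] (B : YM.Frame G n) (U : Link d l → G) :
    action U = YM.act B.toLD U := rfl

lemma dim_eq (B : YM.Frame G n) : dimG G = n := by
  have hli : LinearIndependent ℝ B.X := by
    rw [Fintype.linearIndependent_iff]
    intro c hc a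
    have h1 : (trace ((B.X a)ᴴ * ∑ b, c b • B.X b)).re = c a := by
      rw [Finset.mul_sum, trace_sum, Complex.re_sum]
      have h2 : ∀ b, (trace ((B.X a)ᴴ * (c b • B.X b))).re = if a = b then c b else 0 := by
        intro b
        rw [Matrix.mul_smul, trace_smul, Complex.smul_re, B.orth, smul_eq_mul, mul_ite, mul_one,
          mul_zero]
      simp only [h2]
      rw [Finset.sum_ite_eq Finset.univ a, if_pos (Finset.mem_univ a)]
    rw [hc, mul_zero, trace_zero] at h1
    exact h1.symm
  have hspan : Submodule.span ℝ {Y : Mt N | ∀ t : ℝ, ∃ g : G, mt g = NormedSpace.exp (t • Y)} =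
      Submodule.span ℝ (Set.range B.X) := by
    refine le_antisymm (Submodule.span_le.2 fun Y hY => B.full Y hY) (Submodule.span_le.2 ?_)
    rintro _ ⟨a, rfl⟩
    exact Submodule.subset_span fun t => ⟨B.ex a t, B.ex_eq a t⟩
  unfold dimG
  rw [hspan, finrank_span_eq_card hli, Fintype.card_fin]

section bridge

variable [CompactSpace G] [SecondCountableTopology G] [MeasurableSpace G] [BorelSpace G]
  (μ : Measure G) [IsProbabilityMeasure μ] [μ.IsHaarMeasure] (B : YM.Frame G n)

lemma expect_eq [NeZero l] (β : ℝ) (F : (LinkZ d → G) → ℝ) : expect l μ β F =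
    YM.EX μ B.toLD β (fun U : YM.Ed d l → G => F (YM.lf U)) := by
  unfold expect YM.EX YM.Zt
  simp only [one_mul]
  rfl

include B in
lemma action_cont [NeZero l] : Continuous (action : (Link d l → G) → ℝ) :=
  YM.act_cont (L := B.toLD)

include B in
/-- existence of infinite volume limits -/
lemma exists_infVol (β : ℝ) : ∃ ν : Measure (LinkZ d → G), IsInfVol μ β ν := by
  have hP : ∀ j : ℕ, ∃ P : ProbabilityMeasure (LinkZ d → G),
      ∀ F : (LinkZ d → G) → ℝ, Continuous F →
        ∫ V, F V ∂(P : Measure (LinkZ d → G)) = expect (2 * (j + 1)) μ β F := by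
    intro j
    have hper : Continuous (per : (Link d (2 * (j + 1)) → G) → LinkZ d → G) :=
      continuous_pi fun e => continuous_apply _
    have hexp : Continuous fun U : Link d (2 * (j + 1)) → G =>
        Real.exp (-(β * action U)) :=
      Real.continuous_exp.comp (continuous_const.mul (action_cont B)).neg
    have hint : Integrable (fun U : Link d (2 * (j + 1)) → G =>
        Real.exp (-(β * action U))) (Measure.pi fun _ => μ) :=
      hexp.integrable_of_hasCompactSupport (HasCompactSupport.of_compactSpace _)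
    have h1 := isProbabilityMeasure_tilted (f := fun U : Link d (2 * (j + 1)) → G =>
      -(β * action U)) hint
    refine ⟨⟨((Measure.pi fun _ => μ).tilted fun U : Link d (2 * (j + 1)) → G =>
      -(β * action U)).map per, Measure.isProbabilityMeasure_map hper.aemeasurable⟩,
      fun F hF => ?_⟩
    show ∫ V, F V ∂(((Measure.pi fun _ => μ).tilted fun U : Link d (2 * (j + 1)) → G =>
      -(β * action U)).map per) = _
    rw [integral_map hper.aemeasurable hF.aestronglyMeasurable, integral_tilted]
    unfold expect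
    rw [← integral_div]
    refine integral_congr_ae (Filter.Eventually.of_forall fun U => ?_)
    simp only [smul_eq_mul]
    ring
  choose P hP using hP
  obtain ⟨ν, s, hs, hlim⟩ := CompactSpace.tendsto_subseq P
  refine ⟨ν, ⟨inferInstance, s, hs.tendsto_atTop, fun F hF => ?_⟩⟩
  have h1 := (ProbabilityMeasure.tendsto_iff_forall_integral_tendsto.1 hlim)
    (BoundedContinuousFunction.mkOfCompact ⟨F, hF⟩)
  simp only [Function.comp_apply, BoundedContinuousFunction.mkOfCompact_apply,
    ContinuousMap.coe_mk] at h1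
  simpa only [hP _ F hF] using h1

omit [CompactSpace G] [SecondCountableTopology G] [MeasurableSpace G] [BorelSpace G] in
lemma hol_eq (V : LinkZ d → G) (x : Fin d → ℤ) (p : List (Fin d × Bool)) :
    hol V x p = YM.hol V x p := by
  induction p generalizing x with
  | nil => rfl
  | cons s p ih =>
    obtain ⟨i, s⟩ := s
    cases s with
    | true => simp only [hol, YM.hol, ih]
    | false => simp only [hol, YM.hol, ih]

omit [CompactSpace G] [SecondCountableTopology G] [MeasurableSpace G] [BorelSpace G] in
lemma loopE_eq (C : Path d) (V : LinkZ d → G) :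
    loopE C V = h630.L.wz B.toLD C.1 C.2 V := by
  unfold loopE h630.L.wz YM.we
  rw [hol_eq]
  rfl

end bridge

lemma dest_eq (x : Fin d → ℤ) (p : List (Fin d × Bool)) : dest x p = YM.dest x p := by
  induction p generalizing x with
  | nil => rfl
  | cons s p ih =>
    obtain ⟨i, s⟩ := s
    cases s with
    | true => simp only [dest, YM.dest, ih]
    | false => simp only [dest, YM.dest, ih]

lemma links_eq (x : Fin d → ℤ) (p : List (Fin d × Bool)) : links x p = h630.L.steps x p := by
  induction p generalizing x with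
  | nil => rfl
  | cons s p ih =>
    obtain ⟨i, s⟩ := s
    cases s with
    | true => simp only [links, h630.L.steps, ih]
    | false => simp only [links, h630.L.steps, ih]

lemma induct_eq (hd : 3 ≤ d) (C C' : Path d) :
    h630.L.kij C.1 C.2 C'.1 C'.2 = induct C C' := by
  rw [h630.L.kij_eq hd]
  unfold induct
  rw [links_eq, links_eq]
  rfl

theorem result {N d : ℕ} (hd : 3 ≤ d) (G : Subgroup (UU N))
    (hG : IsClosed (G : Set (UU N))) [MeasurableSpace G] [BorelSpace G]
    (μ : Measure G) [IsProbabilityMeasure μ] [μ.IsHaarMeasure] :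
    ∃ c : ℝ, 0 < c ∧ ∀ β : ℝ, 1 ≤ β →
      (∀ ν : Measure (LinkZ d → G), IsInfVol μ β ν → ∀ Λ : ℕ, 1 ≤ Λ →
        (∀ (k : ℕ) (C : Fin k → Path d), (∀ i, IsLoop Λ (C i)) → (∀ i j, Near Λ (C i) (C j)) →
          ∀ s : Fin k → ℝ, (∀ i, 0 ≤ s i) →
          |laplace ν β C s - loopDet C s ^ (-(dimG G : ℝ) / 2)| ≤
            c * (1 + k) * (1 + ∑ i, s i) * Λ ^ 4 * β ^ (-(1 / (32 * (d + 2))) : ℝ)) ∧
        (∀ C : Path d, IsLoop Λ C →
          |β * mean ν C - dimG G / 2 * induct C C| ≤
            c * Λ ^ 8 * β ^ (-(1 / (64 * (d + 2))) : ℝ)) ∧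
        (∀ C C' : Path d, IsLoop Λ C → IsLoop Λ C' → Near Λ C C' →
          |β ^ 2 * cov ν C C' - dimG G / 2 * induct C C' ^ 2| ≤
            c * Λ ^ 12 * β ^ (-(1 / (96 * (d + 2))) : ℝ))) ∧
      ∃ ν : Measure (LinkZ d → G), IsInfVol μ β ν := by
  have : CompactSpace G := by
    have h1 : IsCompact (G : Set (UU N)) := hG.isCompact
    exact isCompact_iff_compactSpace.1 h1
  have h00 : SecondCountableTopology (UU N) := TopologicalSpace.Subtype.secondCountableTopology _
  have : SecondCountableTopology G := TopologicalSpace.Subtype.secondCountableTopology _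
  have := right_inv μ
  have := inv_inv' μ
  obtain ⟨n, ⟨B⟩⟩ := YM.exists_frame hG
  obtain ⟨C0, hC0, hcar⟩ := YM.cartan' B hG
  obtain ⟨c, hc, hlaw⟩ := h630.L.law_inf μ (L := B.toLD) (d := d) hd hC0 hcar
  rw [dim_eq B]
  refine ⟨c, hc, fun β hβ => ⟨fun ν hν Λ hΛ => ?_, exists_infVol μ B β⟩⟩
  have hβ0 : 0 < β := by linarith
  have hd0 : (0 : ℝ) < 32 * (d + 2) := by positivity
  obtain ⟨r, hr⟩ : ∃ r : ℝ, r = β ^ (1 / (192 * (d + 2)) : ℝ) := ⟨_, rfl⟩
  have hr1 : 1 ≤ r := by rw [hr]; exact Real.one_le_rpow hβ (by positivity)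
  have hr6 : r ^ 6 = β ^ (1 / (32 * (d + 2)) : ℝ) := by
    rw [hr, ← Real.rpow_natCast, ← Real.rpow_mul hβ0.le]
    congr 1
    push_cast
    field_simp
    norm_num
  have hr3 : r ^ 3 = β ^ (1 / (64 * (d + 2)) : ℝ) := by
    rw [hr, ← Real.rpow_natCast, ← Real.rpow_mul hβ0.le]
    congr 1
    push_cast
    field_simp
    norm_num
  have hr2 : r ^ 2 = β ^ (1 / (96 * (d + 2)) : ℝ) := by
    rw [hr, ← Real.rpow_natCast, ← Real.rpow_mul hβ0.le]
    congr 1
    push_cast
    field_simp
    norm_num
  have hrβ : (r ^ 6) ^ (32 * (d + 2)) = β := by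
    rw [hr6, ← Real.rpow_natCast, ← Real.rpow_mul hβ0.le]
    push_cast
    rw [one_div, inv_mul_cancel₀ hd0.ne', Real.rpow_one]
  obtain ⟨φ, hφ, hlim⟩ := hν.lim
  have := hν.prob
  obtain ⟨h1, h2, h3⟩ := hlaw r hr1 ν φ ⟨hφ, fun F hF => by
    rw [hrβ]
    refine (hlim F hF).congr fun j => ?_
    exact expect_eq μ B β F⟩ Λ hΛ
  rw [hrβ] at h1 h2 h3
  unfold laplace cov mean loopDet IsLoop Near
  simp only [loopE_eq B, dest_eq, ← induct_eq hd]
  rw [Real.rpow_neg hβ0.le, Real.rpow_neg hβ0.le, Real.rpow_neg hβ0.le, ← hr6, ← hr3, ← hr2]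
  refine ⟨fun k C hC hne s hs => ?_, fun C hC => ?_, fun C C' hC hC' hne => ?_⟩
  · have h4 : ∃ o : Fin d → ℤ, ∀ i j, |(C i).1 j - o j| ≤ Λ := by
      rcases Nat.eq_zero_or_pos k with h0 | h0
      · subst h0
        exact ⟨0, fun i => i.elim0⟩
      · exact ⟨(C ⟨0, h0⟩).1, fun i => hne i _⟩
    obtain ⟨o, ho⟩ := h4
    refine (h1 (Fin k) o (fun i => (C i).1) (fun i => (C i).2) ho (fun i => (hC i).2)
      (fun i => (hC i).1) s hs).trans (le_of_eq ?_)
    rw [Fintype.card_fin]
    ring
  · have e1 := h2 C.1 C.2 hC.2 hC.1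
    rw [integral_const_mul] at e1
    refine e1.trans (le_of_eq ?_)
    ring
  · have e1 := h3 C.1 C.2 C'.1 C'.2 (fun j => by rw [abs_sub_comm]; exact hne j) hC.2 hC'.2
      hC.1 hC'.1
    have e2 : ∀ V : LinkZ d → G, (β * h630.L.wz B.toLD C.1 C.2 V) *
        (β * h630.L.wz B.toLD C'.1 C'.2 V) =
        β ^ 2 * (h630.L.wz B.toLD C.1 C.2 V * h630.L.wz B.toLD C'.1 C'.2 V) := fun V => by ring
    simp only [e2] at e1
    rw [integral_const_mul, integral_const_mul, integral_const_mul] at e1
    refine le_trans (le_of_eq ?_) (e1.trans (le_of_eq ?_))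
    · congr 1; ring
    · ring

end

end Pool.Agent.Results.MP_7f377f_mp.WilsonLoopLaw
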