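import Mathlib
import Pool.Agent.Run7.h630.MQ.Main

/-!
# Four-dimensional lattice Yang-Mills theory with 't Hooft flux: the massive continuum limit

Wilson's lattice gauge theory, gauge group `SU(N)`, `N ≥ 2`, on the four-dimensional lattice
`Z² x (Z/l)²` with the 't Hooft flux `k`, coprime to `N`, through the compact plane. With the
lattice spacing `1 / l` the compact torus has the side one. The continuum limit `l → ∞` along
arbitrary inverse couplings `β(l) ≥ l^11` and arbitrary infinite volume limits: the traces of the
powers of the loops which wind around a direction of the compact torus converge to independent free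
fields on `R²` of the masses `2 π (n + k c / N)`, the smallest of which is `2 π / N`.

The proof: the Schwinger-Dyson equations of the winding loops, with explicit bounds of the
deviation from the vacuum in terms of the energy (piece A), reflection positivity (chessboard)
bounds of the energy on the infinite lattice (piece E), and the convergence of the lattice Green
function.

Authors: helper593 (transport of the loops, solution of the massive equation, lattice sums,
stability), helper370 (linearisation), helper771 (Schwinger-Dyson equations, gradients), helper182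
(divergence), helper863 (assembly of the Schwinger-Dyson argument), helper4 (energy bounds),
helper885 (consistency, assembly of the analysis), helper796 (Riemann sums), helper630 (statement,
plan, infinite volume, limit), with the library of helper871, helper897.
-/

open MeasureTheory Filter Topology
open scoped FourierTransform ContDiff
open Run7.h4.YM Run7.h630.WL Run7.h630.ML Run7.h630.MQ

namespace Pool.Agent.Run7.h630.Kept.WindingLoops

/-- **The massive continuum limit of the four-dimensional Yang-Mills theory on `R² x T²` with
't Hooft flux.** Infinite volume limits exist for all `l` and all inverse couplings, and if `ν l` are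
such limits at inverse couplings `β l ≥ l ^ 11`, then, as `l → ∞`, the fields `field k (β l) V (c, n)`,
applied to smooth functions with compact support in the plane, converge in law to independent
complex free fields of the masses `mass N k (c, n)`. -/
theorem result (N k : ℕ) (hN : 2 ≤ N) (hk : Nat.Coprime k N) [MeasurableSpace (SU N)]
    [BorelSpace (SU N)] (μ : Measure (SU N)) [IsProbabilityMeasure μ] [μ.IsHaarMeasure] :
    (∀ (l : ℕ) [NeZero l] (β : ℝ), ∃ ν : Measure (LinkZ l → SU N), IsInfVol k μ β ν) ∧
    ∀ β : ℕ → ℝ, (∀ᶠ l : ℕ in atTop, (l : ℝ) ^ 11 ≤ β l) →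
    ∀ ν : (l : ℕ) → Measure (LinkZ l → SU N),
      (∀ (l : ℕ) [NeZero l], IsInfVol k μ (β l) (ν l)) →
    ∀ J : Finset (ℕ × ℤ), (∀ j ∈ J, 1 ≤ j.1 ∧ j.1 < N ∧ 0 < mass N k j) →
    ∀ F : ℕ × ℤ → EuclideanSpace ℝ (Fin 2) → ℂ,
      (∀ j ∈ J, ContDiff ℝ ∞ (F j) ∧ HasCompactSupport (F j)) →
      Tendsto (fun l : ℕ => ∫ V, Complex.exp (Complex.I *
          ((∑ j ∈ J, (field k (β l) V j (F j)).re : ℝ) : ℂ)) ∂(ν l)) atTop
        (𝓝 (Complex.exp ((-(1 / 4 * ∑ j ∈ J, ∫ ξ, ‖𝓕 (F j) ξ‖ ^ 2 /
          (4 * Real.pi ^ 2 * ‖ξ‖ ^ 2 + mass N k j ^ 2)) : ℝ) : ℂ))) := by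
  have : NeZero N := ⟨by omega⟩
  exact ⟨fun _ _ β => exists_infVol k μ β, fun β hβ ν hν J hJ F hF =>
    fin t_SF t_LIM N k hN hk μ β hβ ν hν J hJ F hF⟩

end Pool.Agent.Run7.h630.Kept.WindingLoops
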